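import Pool.Agent.N610.EX.Stm
import Pool.Agent.N610.HX.GH

set_option autoImplicit false

/-! Leaf CORE of project EX (helper610): extremal windows are homogeneous. Written by helper331. -/

namespace Pool.Agent.N610.EX

open Finset

namespace CORE

variable {c M : ℕ → ℕ}

theorem M_mod (hsub : ∀ h h', M (h + h') ≤ M h + M h') (s q r : ℕ) :
    M (s * q + r) ≤ q * M s + M r := by
  induction q with
  | zero => simp
  | succ q ih =>
    have h1 := hsub s (s * q + r)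
    have e : s * (q + 1) + r = s + (s * q + r) := by ring
    rw [e]
    calc M (s + (s * q + r)) ≤ M s + M (s * q + r) := h1
      _ ≤ M s + (q * M s + M r) := Nat.add_le_add_left ih _
      _ = (q + 1) * M s + M r := by ring

theorem M_le (hM : Monotone M) (hsub : ∀ h h', M (h + h') ≤ M h + M h') (s : ℕ) (hs : 1 ≤ s)
    (h : ℕ) : (M h : ℝ) ≤ (M s : ℝ) / s * (h + s) := by
  have hs0 : (0 : ℝ) < s := by exact_mod_cast hs
  have h1 := M_mod hsub s (h / s) (h % s)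
  rw [Nat.div_add_mod] at h1
  have h2 : M (h % s) ≤ M s := hM (Nat.mod_lt _ hs).le
  have h3 : M h ≤ (h / s + 1) * M s := by
    rw [add_mul, one_mul]
    exact h1.trans (Nat.add_le_add_left h2 _)
  have h4 : s * (h / s + 1) ≤ h + s := by
    rw [mul_add, mul_one]
    exact Nat.add_le_add_right (Nat.mul_div_le h s) _
  have h3' : (M h : ℝ) ≤ (((h / s : ℕ) : ℝ) + 1) * M s := by exact_mod_cast h3
  have h4' : (s : ℝ) * (((h / s : ℕ) : ℝ) + 1) ≤ h + s := by exact_mod_cast h4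
  rw [div_mul_eq_mul_div, le_div_iff₀ hs0]
  calc (M h : ℝ) * s ≤ (((h / s : ℕ) : ℝ) + 1) * M s * s :=
        mul_le_mul_of_nonneg_right h3' hs0.le
    _ = M s * (s * (((h / s : ℕ) : ℝ) + 1)) := by ring
    _ ≤ M s * (h + s) := mul_le_mul_of_nonneg_left h4' (Nat.cast_nonneg _)

theorem M_mul (hsub : ∀ h h', M (h + h') ≤ M h + M h') (s n : ℕ) (hn : 1 ≤ n) :
    M (s * n) ≤ n * M s := by
  obtain ⟨k, rfl⟩ : ∃ k, n = k + 1 := ⟨n - 1, by omega⟩
  have := M_mod hsub s k s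
  calc M (s * (k + 1)) = M (s * k + s) := by rw [mul_add, mul_one]
    _ ≤ k * M s + M s := this
    _ = (k + 1) * M s := by ring

theorem tau_aux (τ : ℝ) (h0 : 0 ≤ τ) (h1 : τ ≤ 1 / 112) :
    (1 + τ) * (1 + 2 * τ) * (1 + τ) ≤ 1 + 5 * τ ∧ (1 + τ) * (1 + 2 * τ) ≤ 2 ∧
      (1 + τ) * (1 + τ) ≤ 1 + 3 * τ := by
  have h2 : τ * τ ≤ 1 / 112 * τ := mul_le_mul_of_nonneg_right h1 h0
  have h3 : τ * τ * τ ≤ 1 / 112 * τ * τ := mul_le_mul_of_nonneg_right h2 h0
  refine ⟨?_, ?_, ?_⟩ <;> linarith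

theorem core (K ε : ℝ) (hK : 1 ≤ K) (hε : 0 < ε) (hε1 : ε ≤ 1) (x s P D : ℕ) (hs : 1 ≤ s)
    (hP : 112 ≤ ε ^ 2 * P) (hD : 48 * K ≤ ε ^ 2 * D) (hc : Monotone c) (hM : Monotone M)
    (hsub : ∀ h h', M (h + h') ≤ M h + M h')
    (hup : ∀ t h, x ≤ t → h ≤ 2 * (s * P ^ 2 * D) → c (t + h) ≤ c t + M h)
    (heq : c (x + s * P ^ 2 * D) = c x + M (s * P ^ 2 * D))
    (hv : (M s : ℝ) / s ≤ (1 + 1 / P) * ((M (s * P ^ 2 * D) : ℝ) / ((s * P ^ 2 * D : ℕ) : ℝ))) :
    HomC c (M (s * P ^ 2 * D)) ε K (s * P ^ 2) (s * P ^ 2 * D) x := by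
  classical
  -- constants
  have hε2 : ε ^ 2 ≤ ε := by nlinarith
  have hε3 : ε ^ 2 ≤ 1 := by linarith
  have hε0 : 0 < ε ^ 2 := by positivity
  have hs0 : (0 : ℝ) < s := by exact_mod_cast hs
  have hP1 : (112 : ℝ) ≤ P := by
    have : ε ^ 2 * (P : ℝ) ≤ 1 * P := mul_le_mul_of_nonneg_right hε3 (Nat.cast_nonneg _)
    linarith
  have hD1 : (48 : ℝ) ≤ D := by
    have : ε ^ 2 * (D : ℝ) ≤ 1 * D := mul_le_mul_of_nonneg_right hε3 (Nat.cast_nonneg _)
    linarith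
  have hP0 : (0 : ℝ) < P := by linarith
  have hD0 : (0 : ℝ) < D := by linarith
  have hPn : 1 ≤ P := by
    have : (0 : ℝ) < (P : ℝ) := hP0
    exact_mod_cast this
  have hDn : 1 ≤ D := by
    have : (0 : ℝ) < (D : ℝ) := hD0
    exact_mod_cast this
  set H : ℕ := s * P ^ 2 with hH
  set Y : ℕ := H * D with hY
  have hHr : (H : ℝ) = s * (P : ℝ) ^ 2 := by rw [hH]; push_cast; rfl
  have hYr : (Y : ℝ) = H * D := by rw [hY]; push_cast; rfl
  have hH0 : (0 : ℝ) < H := by rw [hHr]; positivity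
  have hY0 : (0 : ℝ) < Y := by rw [hYr]; positivity
  have hHn : 1 ≤ H := by exact_mod_cast hH0
  have hYn : 1 ≤ Y := by exact_mod_cast hY0
  have hsH : (s : ℝ) ≤ H := by
    rw [hHr]
    have : (1 : ℝ) ≤ (P : ℝ) ^ 2 := one_le_pow₀ (by linarith)
    exact le_mul_of_one_le_right hs0.le this
  set τ : ℝ := 1 / P with hτ
  have hτ0 : 0 < τ := by rw [hτ]; positivity
  have hτ1 : τ ≤ ε ^ 2 / 112 := by
    rw [hτ, div_le_div_iff₀ hP0 (by norm_num)]
    linarith
  have hτ2 : τ ≤ 1 / 112 := by linarith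
  have hτP : τ * P = 1 := by rw [hτ]; field_simp
  have hτs : (s : ℝ) = τ * (s * P) := by
    calc (s : ℝ) = s * (τ * P) := by rw [hτP, mul_one]
      _ = τ * (s * P) := by ring
  have hτH : (s : ℝ) * P = τ * H := by
    calc (s : ℝ) * P = s * P * (τ * P) := by rw [hτP, mul_one]
      _ = τ * H := by rw [hHr]; ring
  set u : ℝ := (M Y : ℝ) / (Y : ℝ) with hu
  set v : ℝ := (M s : ℝ) / s with hvd
  have hu0 : 0 ≤ u := by rw [hu]; positivity
  have hv0 : 0 ≤ v := by rw [hvd]; positivity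
  have huY : u * Y = M Y := by rw [hu]; field_simp
  have huv : u ≤ v := by
    have h1 := M_mul hsub s (P ^ 2 * D) (Nat.mul_pos (pow_pos (by omega) 2) (by omega))
    have e : s * (P ^ 2 * D) = Y := by rw [hY, hH]; ring
    rw [e] at h1
    have h1' : (M Y : ℝ) ≤ (P : ℝ) ^ 2 * D * M s := by exact_mod_cast h1
    rw [hu, hvd, div_le_div_iff₀ hY0 hs0]
    calc (M Y : ℝ) * s ≤ (P : ℝ) ^ 2 * D * M s * s := mul_le_mul_of_nonneg_right h1' hs0.le
      _ = M s * Y := by rw [hYr, hHr]; ring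
  have hMle : ∀ h : ℕ, (M h : ℝ) ≤ v * (h + s) := M_le hM hsub s hs
  have hKH : 48 * (K * H) ≤ ε ^ 2 * Y := by
    rw [hYr]
    calc 48 * (K * H) = (48 * K) * H := by ring
      _ ≤ (ε ^ 2 * D) * H := mul_le_mul_of_nonneg_right hD hH0.le
      _ = ε ^ 2 * (H * D) := by ring
  have h2HY : 2 * (H : ℝ) ≤ Y := by
    rw [hYr, mul_comm 2 (H : ℝ)]
    exact mul_le_mul_of_nonneg_left (by linarith) hH0.le
  have hKH0 : 0 < K * H := by positivity
  have hHKH : (H : ℝ) ≤ K * H := le_mul_of_one_le_left hH0.le hK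
  have hε2Y : ε ^ 2 * Y ≤ Y := mul_le_of_le_one_left hY0.le hε3
  have hε2Y0 : 0 ≤ ε ^ 2 * Y := mul_nonneg hε0.le hY0.le
  obtain ⟨t1, t2, t3⟩ := tau_aux τ hτ0.le hτ2
  have hKHY : K * H ≤ Y := by linarith
  have huhY : ∀ h : ℕ, (M Y : ℝ) * h / Y = u * h := by
    intro h
    rw [hu]
    ring
  unfold HomC
  clear_value u v τ
  by_cases hu1 : u = 0
  · -- the trivial case
    have hv1 : v = 0 := by
      have : v ≤ (1 + τ) * u := hv
      rw [hu1, mul_zero] at this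
      linarith
    have hM0 : ∀ h, M h = 0 := by
      intro h
      have := hMle h
      rw [hv1, zero_mul] at this
      have h2 : (0 : ℝ) ≤ M h := Nat.cast_nonneg _
      have h3 : (M h : ℝ) = 0 := by linarith
      exact_mod_cast h3
    have hemp : ((Ioc x (x + Y)).filter (fun n : ℕ => ¬ ∀ h : ℕ, H ≤ h → (h : ℝ) ≤ K * H →
        |((c (n + h) : ℝ) - c n) - (M Y : ℝ) * h / Y| ≤ ε * ((M Y : ℝ) * h / Y))) = ∅ := by
      rw [Finset.filter_eq_empty_iff]
      intro n hn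
      rw [Finset.mem_Ioc] at hn
      rw [not_not]
      intro h hh1 hh2
      rw [hM0 Y]
      have h4 : (h : ℝ) ≤ Y := by linarith
      have h5 : h ≤ Y := by exact_mod_cast h4
      have h6 := hup n h (by omega) (by omega)
      rw [hM0 h] at h6
      have h7 : c n ≤ c (n + h) := hc (by omega)
      have h8 : c (n + h) = c n := by omega
      rw [h8]
      simp
    rw [hemp]
    simp only [Finset.card_empty, Nat.cast_zero]
    positivity
  have hu2 : 0 < u := lt_of_le_of_ne hu0 (Ne.symm hu1)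
  set E : Finset ℕ := (Ioc x (x + Y)).filter (fun n : ℕ => ¬ ∀ h : ℕ, H ≤ h → (h : ℝ) ≤ K * H →
      |((c (n + h) : ℝ) - c n) - (M Y : ℝ) * h / Y| ≤ ε * ((M Y : ℝ) * h / Y)) with hE
  set z : ℝ := x + Y - K * H with hz
  have hxz : (x : ℝ) ≤ z := by rw [hz]; linarith
  have hz0 : 0 ≤ z := le_trans (Nat.cast_nonneg _) hxz
  -- the exceptional points have too small densities
  have hlow : ∀ n ∈ E, ∃ h : ℕ, H ≤ h ∧ (h : ℝ) ≤ K * H ∧
      (c (n + h) : ℝ) - c n ≤ (1 - ε) * u * h := by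
    intro n hn
    rw [hE, Finset.mem_filter, Finset.mem_Ioc] at hn
    obtain ⟨⟨hn1, hn2⟩, hn3⟩ := hn
    push Not at hn3
    obtain ⟨h, hh1, hh2, hh3⟩ := hn3
    refine ⟨h, hh1, hh2, ?_⟩
    rw [huhY] at hh3
    have h4 : (h : ℝ) ≤ Y := by linarith
    have h5 : h ≤ Y := by exact_mod_cast h4
    have h6 := hup n h (by omega) (by omega)
    have h6' : (c (n + h) : ℝ) ≤ c n + M h := by exact_mod_cast h6
    have h7 := hMle h
    have hHh : (H : ℝ) ≤ h := by exact_mod_cast hh1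
    have hh0 : (0 : ℝ) < h := by linarith
    have h8 : (s : ℝ) ≤ τ * h := by
      have : (s : ℝ) = τ * (τ * H) := by rw [← hτH]; exact hτs
      have h9 : τ * H ≤ 1 * H := mul_le_mul_of_nonneg_right (by linarith) hH0.le
      calc (s : ℝ) = τ * (τ * H) := this
        _ ≤ τ * (1 * H) := mul_le_mul_of_nonneg_left h9 hτ0.le
        _ ≤ τ * h := by rw [one_mul]; exact mul_le_mul_of_nonneg_left hHh hτ0.le
    have h9 : v * (h + s) ≤ (1 + ε) * u * h := by
      calc v * (h + s) ≤ ((1 + τ) * u) * (h + τ * h) := by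
            apply mul_le_mul hv (by linarith) (by positivity)
            positivity
        _ = (1 + τ) * (1 + τ) * (u * h) := by ring
        _ ≤ (1 + ε) * (u * h) := by
            apply mul_le_mul_of_nonneg_right _ (by positivity)
            have : τ ≤ ε / 112 := by linarith
            linarith
        _ = (1 + ε) * u * h := by ring
    by_contra hcon
    push Not at hcon
    apply absurd hh3
    rw [not_lt, abs_le]
    constructor <;> linarith
  -- the two parts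
  set E1 := E.filter (fun n : ℕ => (n : ℝ) ≤ z) with hE1
  set E2 := E.filter (fun n : ℕ => ¬ (n : ℝ) ≤ z) with hE2
  have hcard : E.card = E1.card + E2.card := by
    rw [hE1, hE2, Finset.card_filter_add_card_filter_not]
  -- floor of z
  have hxz' : x ≤ ⌊z⌋₊ := Nat.le_floor hxz
  have hzY : z ≤ ((x + Y : ℕ) : ℝ) := by rw [hz]; push_cast; linarith
  have hzY' : ⌊z⌋₊ ≤ x + Y := Nat.floor_le_of_le hzY
  obtain ⟨w, hw⟩ : ∃ w, ⌊z⌋₊ + w = x + Y := ⟨x + Y - ⌊z⌋₊, by omega⟩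
  have hwr : (w : ℝ) ≤ K * H + 1 := by
    have h1 := Nat.lt_floor_add_one z
    have h2 : ((⌊z⌋₊ : ℕ) : ℝ) + w = x + Y := by exact_mod_cast hw
    rw [hz] at h1
    linarith
  -- second part
  have hc2 : (E2.card : ℝ) ≤ 2 * (K * H) := by
    have hsubs : E2 ⊆ Ioc ⌊z⌋₊ (x + Y) := by
      intro n hn
      rw [hE2, Finset.mem_filter, hE, Finset.mem_filter, Finset.mem_Ioc] at hn
      rw [Finset.mem_Ioc]
      refine ⟨?_, hn.1.1.2⟩
      rw [Nat.floor_lt hz0]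
      exact not_le.1 hn.2
    have h1 := Finset.card_le_card hsubs
    rw [Nat.card_Ioc] at h1
    have h2 : E2.card ≤ w := by omega
    have h3 : (E2.card : ℝ) ≤ w := by exact_mod_cast h2
    have h4 : (1 : ℝ) ≤ H := by exact_mod_cast hHn
    linarith
  -- first part
  have hα0 : 0 ≤ v * (1 + 2 * τ) := by positivity
  have hβ0 : 0 ≤ (1 - ε) * u := mul_nonneg (by linarith) hu0
  have huα : u ≤ v * (1 + 2 * τ) :=
    huv.trans (le_mul_of_one_le_right hv0 (by linarith))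
  have hβα : (1 - ε) * u ≤ v * (1 + 2 * τ) :=
    (mul_le_of_le_one_left hu0 (by linarith)).trans huα
  have hSS : (s : ℝ) * P ≤ H := by
    rw [hτH]
    exact mul_le_of_le_one_left hH0.le (by linarith)
  have hGH := (Pool.Agent.N610.HX.t_GH (fun t => (c ⌊t⌋₊ : ℝ))
    (fun a b hab => by
      have h1 : c ⌊a⌋₊ ≤ c ⌊b⌋₊ := hc (Nat.floor_mono hab)
      have h2 : (c ⌊a⌋₊ : ℝ) ≤ c ⌊b⌋₊ := by exact_mod_cast h1
      exact h2) x z (s * P) H (K * H) (v * (1 + 2 * τ)) ((1 - ε) * u) hα0 hβ0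
    (by positivity) hSS (by exact_mod_cast hHn) hHKH (by rw [hz]; linarith) E1
    (by
      intro n hn
      rw [hE1, Finset.mem_filter, hE, Finset.mem_filter, Finset.mem_Ioc] at hn
      refine ⟨?_, hn.2⟩
      exact_mod_cast hn.1.1.1.le)).2 hβα
    (by
      intro t y ht hy hty
      have hy0 : 0 ≤ y := le_trans (by positivity) hy
      have ht0 : 0 ≤ t := le_trans (Nat.cast_nonneg _) ht
      have f1 : ⌊t + y⌋₊ ≤ ⌊t⌋₊ + ⌈y⌉₊ := by
        rw [← Nat.lt_add_one_iff, Nat.floor_lt (by linarith)]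
        push_cast
        have := Nat.lt_floor_add_one t
        have := Nat.le_ceil y
        linarith
      have f2 : x ≤ ⌊t⌋₊ := Nat.le_floor ht
      have f3 : ⌈y⌉₊ ≤ 2 * Y := by
        rw [Nat.ceil_le]
        push_cast
        rw [hz] at hty
        linarith
      have f4 : c ⌊t + y⌋₊ ≤ c ⌊t⌋₊ + M ⌈y⌉₊ := (hc f1).trans (hup _ _ f2 f3)
      have f4' : (c ⌊t + y⌋₊ : ℝ) ≤ c ⌊t⌋₊ + M ⌈y⌉₊ := by exact_mod_cast f4
      have f5 := hMle ⌈y⌉₊
      have f6 := Nat.ceil_lt_add_one hy0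
      have hs1 : (1 : ℝ) ≤ s := by exact_mod_cast hs
      have f7 : (s : ℝ) ≤ τ * y := by
        rw [hτs]
        exact mul_le_mul_of_nonneg_left hy hτ0.le
      have f8 : v * (((⌈y⌉₊ : ℕ) : ℝ) + s) ≤ v * (y + 2 * τ * y) :=
        mul_le_mul_of_nonneg_left (by linarith) hv0
      calc (c ⌊t + y⌋₊ : ℝ) - c ⌊t⌋₊ ≤ v * (y + 2 * τ * y) := by linarith
        _ = v * (1 + 2 * τ) * y := by ring)
    (by
      intro n hn
      obtain ⟨h, hh1, hh2, hh3⟩ := hlow n (Finset.mem_filter.1 hn).1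
      refine ⟨h, by exact_mod_cast hh1, hh2, ?_⟩
      have e1 : ⌊(n : ℝ) + (h : ℝ)⌋₊ = n + h := by
        have := Nat.floor_natCast (R := ℝ) (n + h)
        push_cast at this
        exact this
      have e2 : ⌊(n : ℝ)⌋₊ = n := Nat.floor_natCast n
      simp only [e1, e2]
      exact hh3)
  simp only [Nat.floor_natCast] at hGH
  have hE10 : (0 : ℝ) ≤ (E1.card : ℝ) / 2 := by
    have := Nat.cast_nonneg (α := ℝ) E1.card
    linarith
  clear_value E1 E2
  -- lower bound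
  have hlo : (c (x + Y) : ℝ) ≤ c ⌊z⌋₊ + M w := by
    have := hup ⌊z⌋₊ w hxz' (by omega)
    rw [hw] at this
    exact_mod_cast this
  have heq' : (c (x + Y) : ℝ) = c x + M Y := by exact_mod_cast heq
  have hMw : (M w : ℝ) ≤ 6 * (K * H) * u := by
    have h1 := hMle w
    have h4 : (1 : ℝ) ≤ H := by exact_mod_cast hHn
    calc (M w : ℝ) ≤ v * (w + s) := h1
      _ ≤ v * (3 * (K * H)) := mul_le_mul_of_nonneg_left (by linarith) hv0
      _ ≤ (2 * u) * (3 * (K * H)) := by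
          apply mul_le_mul_of_nonneg_right _ (by positivity)
          have : (1 + τ) * u ≤ 2 * u := mul_le_mul_of_nonneg_right (by linarith) hu0
          exact le_trans hv this
      _ = 6 * (K * H) * u := by ring
  -- combine
  have hSH : (s : ℝ) * P / H = τ := by
    rw [hτH]
    field_simp
  rw [hSH] at hGH
  have hzz : z + K * H - x = Y := by rw [hz]; ring
  rw [hzz] at hGH
  have hα1 : v * (1 + 2 * τ) ≤ (1 + τ) * (1 + 2 * τ) * u := by
    calc v * (1 + 2 * τ) ≤ ((1 + τ) * u) * (1 + 2 * τ) :=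
          mul_le_mul_of_nonneg_right hv (by positivity)
      _ = (1 + τ) * (1 + 2 * τ) * u := by ring
  have g1 : v * (1 + 2 * τ) * (1 + τ) * Y ≤ (1 + 5 * τ) * (u * Y) := by
    calc v * (1 + 2 * τ) * (1 + τ) * Y ≤ ((1 + τ) * (1 + 2 * τ) * u) * (1 + τ) * Y := by gcongr
      _ = ((1 + τ) * (1 + 2 * τ) * (1 + τ)) * (u * Y) := by ring
      _ ≤ (1 + 5 * τ) * (u * Y) := by
          exact mul_le_mul_of_nonneg_right t1 (by positivity)
  have g2 : v * (1 + 2 * τ) * (s * P) ≤ τ * (u * Y) := by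
    rw [hτH]
    calc v * (1 + 2 * τ) * (τ * H) ≤ ((1 + τ) * (1 + 2 * τ) * u) * (τ * H) := by gcongr
      _ = ((1 + τ) * (1 + 2 * τ)) * (u * (τ * H)) := by ring
      _ ≤ 2 * (u * (τ * H)) := by
          exact mul_le_mul_of_nonneg_right t2 (by positivity)
      _ = τ * (u * (2 * H)) := by ring
      _ ≤ τ * (u * Y) := by
          apply mul_le_mul_of_nonneg_left _ hτ0.le
          exact mul_le_mul_of_nonneg_left h2HY hu0
  have g3 : ε * u * (E1.card / 2) ≤ (v * (1 + 2 * τ) - (1 - ε) * u) * (E1.card / 2) := by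
    apply mul_le_mul_of_nonneg_right _ hE10
    linarith
  have g4 : u * (ε * (E1.card / 2)) ≤ u * (6 * τ * Y + 6 * (K * H)) := by
    rw [← huY] at heq'
    linarith
  have g5 : ε * (E1.card / 2) ≤ 6 * τ * Y + 6 * (K * H) := le_of_mul_le_mul_left g4 hu2
  have g6 : 6 * τ * Y ≤ 6 * (ε ^ 2 / 112) * Y := by gcongr
  have g7 : ε * (E1.card / 2) ≤ ε * (ε * Y / 4) := by
    calc ε * ((E1.card : ℝ) / 2) ≤ 6 * (ε ^ 2 / 112) * Y + 6 * (K * H) := by linarith
      _ ≤ ε ^ 2 * Y / 4 := by linarith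
      _ = ε * (ε * Y / 4) := by ring
  have g8 : (E1.card : ℝ) / 2 ≤ ε * Y / 4 := le_of_mul_le_mul_left g7 hε
  have g9 : ε ^ 2 * Y ≤ ε * Y := mul_le_mul_of_nonneg_right hε2 hY0.le
  rw [hcard]
  push_cast
  linarith

end CORE

theorem t_CORE : S_CORE := by
  intro K ε hK hε hε1
  obtain ⟨a1, ha1⟩ := pow_unbounded_of_one_lt (112 / ε ^ 2) (one_lt_two (α := ℝ))
  obtain ⟨b0, hb0⟩ := pow_unbounded_of_one_lt (48 * K / ε ^ 2) (one_lt_two (α := ℝ))
  have hε0 : 0 < ε ^ 2 := by positivity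
  refine ⟨1 / ((2 ^ a1 : ℕ) : ℝ), 2 * a1, b0, by positivity, ?_⟩
  intro c M x i b hb hi hc hM hsub hup heq hv
  obtain ⟨j, rfl⟩ : ∃ j, i = j + 2 * a1 := ⟨i - 2 * a1, by omega⟩
  have e1 : 2 ^ (j + 2 * a1) = 2 ^ j * (2 ^ a1) ^ 2 := by rw [pow_add, ← pow_mul, mul_comm 2 a1]
  have e2 : 2 ^ (j + 2 * a1 + b) = 2 ^ j * (2 ^ a1) ^ 2 * 2 ^ b := by rw [pow_add, e1]
  have e3 : j + 2 * a1 - 2 * a1 = j := by omega
  have e2r : (2 : ℝ) ^ (j + 2 * a1 + b) = ((2 ^ j * (2 ^ a1) ^ 2 * 2 ^ b : ℕ) : ℝ) := by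
    rw [← e2]
    push_cast
    rfl
  rw [e3, e2r] at hv
  rw [e2] at hup heq hv ⊢
  rw [e1]
  refine CORE.core K ε hK hε hε1 x (2 ^ j) (2 ^ a1) (2 ^ b) Nat.one_le_two_pow ?_ ?_ hc hM hsub hup
    heq ?_
  · rw [div_lt_iff₀ hε0] at ha1
    push_cast
    linarith
  · rw [div_lt_iff₀ hε0] at hb0
    have : (2 : ℝ) ^ b0 ≤ 2 ^ b := pow_le_pow_right₀ (by norm_num) hb
    push_cast
    nlinarith
  · push_cast at hv ⊢
    exact hv

end Pool.Agent.N610.EX
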