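import Pool.Agent.N610.EX.Stm
import Pool.Agent.H206R2.RhoChain
import Pool.Agent.H357R2.SI.Common
import Pool.Agent.H902R3.Task469C

set_option autoImplicit false

/-!
# Extremal clusters of primes are homogeneous: assembly
-/

namespace Pool.Agent.N610.EX.FIN

open Finset Filter Pool.Agent.H206R2

/-- late extremal windows of length `2 ^ (i + b)` are homogeneous at the lengths `[2 ^ i, K 2 ^ i]` -/
def HomP (K ε : ℝ) (i b : ℕ) : Prop := ∀ᶠ x : ℕ in atTop,
  Nat.primeCounting (x + 2 ^ (i + b)) = Nat.primeCounting x + rho (2 ^ (i + b)) →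
    HomC Nat.primeCounting (rho (2 ^ (i + b))) ε K (2 ^ i) (2 ^ (i + b)) x

lemma homC_mono {c : ℕ → ℕ} {m : ℕ} {ε ε' K : ℝ} {H Y x : ℕ} (hε : ε' ≤ ε)
    (h : HomC c m ε' K H Y x) : HomC c m ε K H Y x := by
  classical
  unfold HomC at h ⊢
  have h1 : ε' * (Y : ℝ) ≤ ε * Y := mul_le_mul_of_nonneg_right hε (Nat.cast_nonneg _)
  refine le_trans ?_ (h.trans h1)
  refine Nat.cast_le.2 (card_le_card ?_)
  intro n hn
  rw [mem_filter] at hn ⊢
  refine ⟨hn.1, fun h2 => hn.2 fun j hj hjK => (h2 j hj hjK).trans ?_⟩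
  exact mul_le_mul_of_nonneg_right hε (by positivity)

/-- late windows satisfy all upper bounds -/
lemma late (T : ℕ) : ∀ᶠ x : ℕ in atTop, ∀ t h, x ≤ t → h ≤ T →
    Nat.primeCounting (t + h) ≤ Nat.primeCounting t + rho h := by
  have h1 : ∀ h ∈ range (T + 1), ∀ᶠ x : ℕ in atTop, ∀ t, x ≤ t →
      Nat.primeCounting (t + h) ≤ Nat.primeCounting t + rho h := by
    intro h _
    obtain ⟨X, hX⟩ := eventually_atTop.1 (rho_upper h)
    filter_upwards [eventually_ge_atTop X] with x hx t ht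
    exact hX t (hx.trans ht)
  have h2 := (eventually_all_finset (range (T + 1))).2 h1
  filter_upwards [h2] with x hx t h ht hh
  exact hx h (mem_range.2 (by omega)) t ht

/-- `ρ (n) ≤ (n / s + 1) ρ (s)` -/
lemma rho_div {s : ℕ} (hs : 0 < s) (n : ℕ) : (rho n : ℝ) * s ≤ (n + s) * rho s := by
  have h1 : ∀ k : ℕ, rho (s * k) ≤ k * rho s := by
    intro k
    induction k with
    | zero =>
      have h0 : rho 0 = 0 := by
        obtain ⟨x, hx⟩ := (rho_attained 0).exists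
        simpa using hx
      simp [h0]
    | succ k ih =>
      rw [mul_add, mul_one]
      refine (rho_add _ _).trans ?_
      rw [add_mul, one_mul]
      exact Nat.add_le_add_right ih _
  have h2 : rho n ≤ (n / s + 1) * rho s := by
    refine (rho_mono ?_).trans (h1 (n / s + 1))
    have := Nat.div_add_mod n s
    have := Nat.mod_lt n hs
    rw [mul_add, mul_one]
    omega
  have h3 : rho n * s ≤ (n + s) * rho s := by
    calc rho n * s ≤ (n / s + 1) * rho s * s := Nat.mul_le_mul_right _ h2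
      _ = (n / s * s + s) * rho s := by ring
      _ ≤ (n + s) * rho s := Nat.mul_le_mul_right _ (Nat.add_le_add_right (Nat.div_mul_le_self _ _) _)
  exact_mod_cast h3

lemma bt : ∃ Y₀ : ℕ, 2 ≤ Y₀ ∧ ∀ Y : ℕ, Y₀ ≤ Y → (rho Y : ℝ) ≤ 3 * Y / Real.log Y := by
  obtain ⟨Y₀, h2, h⟩ := Pool.Agent.H902R3.C469.bt2 1 one_pos
  refine ⟨Y₀, h2, fun Y hY => ?_⟩
  obtain ⟨x, hx⟩ := (rho_attained Y).exists
  have h3 := h x Y hY
  have e : ((Ioc x (x + Y)).filter Nat.Prime).card + Nat.primeCounting x =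
      Nat.primeCounting (x + Y) := by
    simp only [Nat.primeCounting, Nat.primeCounting', Nat.count_eq_card_filter_range]
    rw [← card_union_of_disjoint]
    · congr 1
      ext p
      simp only [mem_union, mem_filter, mem_Ioc, mem_range]
      constructor
      · rintro (⟨⟨h1, h2⟩, h3⟩ | ⟨h1, h2⟩)
        · exact ⟨by omega, h3⟩
        · exact ⟨by omega, h2⟩
      · rintro ⟨h1, h2⟩
        rcases Nat.lt_or_ge p (x + 1) with h4 | h4
        · exact Or.inr ⟨h4, h2⟩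
        · exact Or.inl ⟨⟨by omega, by omega⟩, h2⟩
    · rw [disjoint_left]
      intro p hp hp'
      simp only [mem_filter, mem_Ioc, mem_range] at hp hp'
      omega
  have e2 : rho Y = ((Ioc x (x + Y)).filter Nat.Prime).card := by omega
  rw [e2]
  refine h3.trans (le_of_eq ?_)
  norm_num

/-- the density -/
noncomputable def f (j : ℕ) : ℝ := (rho (2 ^ j) : ℝ) / 2 ^ j

lemma f_anti : Antitone f := by
  apply antitone_nat_of_succ_le
  intro j
  unfold f
  have h := rho_div (s := 2 ^ j) (by positivity) (2 ^ j)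
  have h1 := rho_add (2 ^ j) (2 ^ j)
  have e : 2 ^ (j + 1) = 2 ^ j + 2 ^ j := by ring
  rw [e]
  have h2 : ((rho (2 ^ j + 2 ^ j) : ℕ) : ℝ) ≤ rho (2 ^ j) + rho (2 ^ j) := by exact_mod_cast h1
  rw [div_le_div_iff₀ (by positivity) (by positivity), pow_succ]
  have h3 : (0 : ℝ) < 2 ^ j := by positivity
  nlinarith

/-- lower bound for the density at the scales below `2 ^ b y` -/
lemma f_lower {y j b : ℕ} {c : ℝ} (hy : 2 ≤ y) (hρ : c * y / Real.log y ≤ rho y)
    (hj : 2 ^ j ≤ 2 ^ b * y) : c / ((1 + 2 ^ b) * Real.log y) ≤ f j := by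
  have hy0 : (0 : ℝ) < y := by exact_mod_cast (by omega : 0 < y)
  have hl : 0 < Real.log y := Real.log_pos (by exact_mod_cast hy)
  have h1 := rho_div (s := 2 ^ j) (by positivity) y
  unfold f
  have h3 : (0 : ℝ) < 2 ^ j := by positivity
  have hj' : (2 : ℝ) ^ j ≤ 2 ^ b * y := by exact_mod_cast hj
  rw [div_le_div_iff₀ (by positivity) h3]
  push_cast at h1
  have h4 : c * y * 2 ^ j ≤ (y + 2 ^ j) * rho (2 ^ j) * Real.log y := by
    rw [div_le_iff₀ hl] at hρ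
    nlinarith
  have h5 : ((y : ℝ) + 2 ^ j) ≤ y * (1 + 2 ^ b) := by nlinarith
  have h6 : (0 : ℝ) ≤ rho (2 ^ j) * Real.log y := by positivity
  have h7 : c * y * 2 ^ j ≤ y * (1 + 2 ^ b) * (rho (2 ^ j) * Real.log y) := by
    refine h4.trans ?_
    rw [mul_assoc]
    exact mul_le_mul_of_nonneg_right h5 h6
  have h8 : y * (c * 2 ^ j) ≤ y * (rho (2 ^ j) * ((1 + 2 ^ b) * Real.log y)) := by
    linarith
  exact le_of_mul_le_mul_left h8 hy0

/-- the contrapositive of `S_CORE` -/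
lemma good {K ε δ : ℝ} {a b₀ : ℕ}
    (h : ∀ (c M : ℕ → ℕ) (x i b : ℕ), b₀ ≤ b → a ≤ i → Monotone c → Monotone M →
    (∀ h h', M (h + h') ≤ M h + M h') →
    (∀ t h, x ≤ t → h ≤ 2 * 2 ^ (i + b) → c (t + h) ≤ c t + M h) →
    c (x + 2 ^ (i + b)) = c x + M (2 ^ (i + b)) →
    (M (2 ^ (i - a)) : ℝ) / 2 ^ (i - a) ≤ (1 + δ) * ((M (2 ^ (i + b)) : ℝ) / 2 ^ (i + b)) →
    HomC c (M (2 ^ (i + b))) ε K (2 ^ i) (2 ^ (i + b)) x) {i b : ℕ} (hb : b₀ ≤ b) (ha : a ≤ i)
    (hf : f (i - a) ≤ (1 + δ) * f (i + b)) : HomP K ε i b := by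
  unfold HomP
  filter_upwards [late (2 * 2 ^ (i + b))] with x hx he
  exact h _ _ x i b hb ha Nat.monotone_primeCounting (fun _ _ h => rho_mono h) rho_add hx he hf

lemma one (hC : S_CORE) (hP : S_PIG) (K ε : ℝ) (hK : 1 ≤ K) (hε : 0 < ε) :
    ∃ b₀ : ℕ, ∀ b, b₀ ≤ b → ∀ θ c : ℝ, 0 < θ → 0 < c → ∃ M : ℕ, ∀ᶠ y : ℕ in atTop,
      c * y / Real.log y ≤ rho y → ∀ I : Finset ℕ,
        (∀ i ∈ I, (y : ℝ) ^ θ ≤ 2 ^ i ∧ 2 ^ i ≤ y ∧ ¬ HomP K ε i b) → I.card ≤ M := by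
  classical
  obtain ⟨δ, a, b₀, hδ, hcore⟩ := hC K (min ε 1) hK (lt_min hε one_pos) (min_le_right _ _)
  refine ⟨b₀, fun b hb θ c hθ hc => ?_⟩
  obtain ⟨Y₀, hY₀2, hbt⟩ := bt
  set R : ℝ := max 1 (6 * (1 + 2 ^ b) / (θ * c)) with hR
  obtain ⟨N, hN⟩ := hP δ R (a + b) hδ (le_max_left _ _)
  refine ⟨N, ?_⟩
  have e1 : ∀ᶠ y : ℕ in atTop, (2 : ℝ) ^ a * (max Y₀ 2 : ℕ) ≤ (y : ℝ) ^ (θ / 2) :=
    ((tendsto_rpow_atTop (by positivity : 0 < θ / 2)).comp
      tendsto_natCast_atTop_atTop).eventually_ge_atTop _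
  filter_upwards [e1, eventually_ge_atTop 2] with y hy hy2 hρ I hI
  have hy1 : (1 : ℝ) < y := by exact_mod_cast (by omega : 1 < y)
  have hy0 : (0 : ℝ) < y := by linarith
  have hl : 0 < Real.log y := Real.log_pos hy1
  have hm2 : (2 : ℝ) ≤ ((max Y₀ 2 : ℕ) : ℝ) := by exact_mod_cast le_max_right _ _
  have h2a : (1 : ℝ) ≤ 2 ^ a := one_le_pow₀ (by norm_num)
  have hyh1 : (1 : ℝ) ≤ (y : ℝ) ^ (θ / 2) := by nlinarith
  have hyy : (y : ℝ) ^ θ = (y : ℝ) ^ (θ / 2) * (y : ℝ) ^ (θ / 2) := by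
    rw [← Real.rpow_add hy0]; congr 1; ring
  have ha : ∀ i ∈ I, a ≤ i := by
    intro i hi
    by_contra hlt
    push Not at hlt
    have h1 : (2 : ℝ) ^ i ≤ 2 ^ a := pow_le_pow_right₀ (by norm_num) hlt.le
    have h2 := (hI i hi).1
    nlinarith
  -- the lengths `2 ^ (i - a)`
  have hlen : ∀ i ∈ I, (y : ℝ) ^ (θ / 2) * (max Y₀ 2 : ℕ) ≤ 2 ^ (i - a) := by
    intro i hi
    have h1 : (2 : ℝ) ^ i = 2 ^ (i - a) * 2 ^ a := by
      rw [← pow_add, Nat.sub_add_cancel (ha i hi)]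
    have h2 := (hI i hi).1
    rw [h1, hyy] at h2
    have h3 : (0 : ℝ) < 2 ^ a := by positivity
    have h4 : (y : ℝ) ^ (θ / 2) * (max Y₀ 2 : ℕ) * 2 ^ a ≤ 2 ^ (i - a) * 2 ^ a := by
      refine le_trans ?_ h2
      have h5 : (0 : ℝ) ≤ (y : ℝ) ^ (θ / 2) := by positivity
      nlinarith
    exact le_of_mul_le_mul_right h4 h3
  have hup : ∀ i ∈ I, f (i - a) ≤ 6 / (θ * Real.log y) := by
    intro i hi
    have h1 := hlen i hi
    have h2 : ((max Y₀ 2 : ℕ) : ℝ) ≤ 2 ^ (i - a) := by nlinarith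
    have h3 : Y₀ ≤ 2 ^ (i - a) := by
      have : max Y₀ 2 ≤ 2 ^ (i - a) := by exact_mod_cast h2
      exact (le_max_left _ _).trans this
    have h4 := hbt _ h3
    have h5 : (y : ℝ) ^ (θ / 2) ≤ 2 ^ (i - a) := by nlinarith
    have h6 : θ / 2 * Real.log y ≤ Real.log (2 ^ (i - a)) := by
      rw [← Real.log_rpow hy0]
      exact Real.log_le_log (by positivity) h5
    have h7 : 0 < θ / 2 * Real.log y := by positivity
    unfold f
    rw [div_le_div_iff₀ (by positivity) (by positivity)]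
    push_cast at h4
    rw [le_div_iff₀ (by linarith)] at h4
    have h8 : (0 : ℝ) ≤ rho (2 ^ (i - a)) := Nat.cast_nonneg _
    nlinarith
  have hlow : ∀ i ∈ I, c / ((1 + 2 ^ b) * Real.log y) ≤ f (i + b) := by
    intro i hi
    apply f_lower hy2 hρ
    rw [pow_add, mul_comm]
    exact Nat.mul_le_mul_left _ (hI i hi).2.1
  have hinj : Set.InjOn (fun i => i - a) (I : Set ℕ) := by
    intro i hi j hj hij
    have h1 := ha i hi
    have h2 := ha j hj
    simp only at hij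
    omega
  rw [← card_image_of_injOn hinj]
  have hsh : ∀ i ∈ I, i - a + (a + b) = i + b := by
    intro i hi
    have := ha i hi
    omega
  apply hN f _ f_anti
  · intro i' hi'
    obtain ⟨i, hi, rfl⟩ := mem_image.1 hi'
    rw [hsh i hi]
    exact lt_of_lt_of_le (by positivity) (hlow i hi)
  · intro i' hi' j' hj'
    obtain ⟨i, hi, rfl⟩ := mem_image.1 hi'
    obtain ⟨j, hj, rfl⟩ := mem_image.1 hj'
    rw [hsh j hj]
    have h1 := hup i hi
    have h2 := hlow j hj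
    have h3 : 6 / (θ * Real.log y) = 6 * (1 + 2 ^ b) / (θ * c) * (c / ((1 + 2 ^ b) * Real.log y)) := by
      field_simp
    calc f (i - a) ≤ 6 * (1 + 2 ^ b) / (θ * c) * (c / ((1 + 2 ^ b) * Real.log y)) := h1.trans h3.le
      _ ≤ R * f (j + b) := by
          apply mul_le_mul (le_max_right _ _) h2 (by positivity)
          exact le_trans zero_le_one (le_max_left _ _)
  · intro i' hi'
    obtain ⟨i, hi, rfl⟩ := mem_image.1 hi'
    rw [hsh i hi]
    by_contra hcon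
    push Not at hcon
    apply (hI i hi).2.2
    have h1 := good hcore hb (ha i hi) hcon
    unfold HomP at h1 ⊢
    filter_upwards [h1] with x hx he
    exact homC_mono (min_le_left _ _) (hx he)

/-- if `Q1` fails then `ρ(y) ≥ (1 - η) y / log y` for arbitrarily large `y` -/
lemma dense (hQ : ¬ Tendsto (fun y : ℕ => (Nat.primeCounting y : ℤ) - rho y) atTop atTop) (η : ℝ)
    (hη : 0 < η) : ∃ᶠ y : ℕ in atTop, (1 - η) * y / Real.log y ≤ rho y := by
  rw [tendsto_atTop] at hQ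
  push Not at hQ
  obtain ⟨C, hC⟩ := hQ
  obtain ⟨X₀, hX₀3, hX₀⟩ := Pool.Agent.H357R2.SI.pnt (η / 2) (by linarith)
  have e1 : ∀ᶠ y : ℕ in atTop, 2 * |(C : ℝ)| / η * Real.log y ≤ y := by
    have ho := (Real.isLittleO_log_id_atTop.bound
      (show (0 : ℝ) < (2 * |(C : ℝ)| / η + 1)⁻¹ by positivity))
    filter_upwards [tendsto_natCast_atTop_atTop.eventually ho, eventually_ge_atTop 1] with y h1 h2
    have hl : 0 ≤ Real.log (y : ℝ) := Real.log_natCast_nonneg _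
    simp only [id, Real.norm_of_nonneg hl, Real.norm_of_nonneg (Nat.cast_nonneg y)] at h1
    have h3 : 0 < 2 * |(C : ℝ)| / η + 1 := by positivity
    rw [inv_mul_eq_div, le_div_iff₀ h3] at h1
    nlinarith
  refine (hC.and_eventually (e1.and (eventually_ge_atTop (max X₀ 3)))).mono ?_
  rintro y ⟨h1, h2, h3⟩
  have hy3 : 3 ≤ y := (le_max_right _ _).trans h3
  have hy1 : (1 : ℝ) < y := by exact_mod_cast (by omega : 1 < y)
  have hl : 0 < Real.log y := Real.log_pos hy1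
  have h4 := (hX₀ y ((le_max_left _ _).trans h3)).1
  have h5 : (Nat.primeCounting y : ℝ) - rho y ≤ C := by
    have : (Nat.primeCounting y : ℤ) - rho y ≤ C := h1.le
    exact_mod_cast this
  have h6 : (C : ℝ) ≤ |(C : ℝ)| := le_abs_self _
  have h7 : |(C : ℝ)| ≤ η / 2 * (y / Real.log y) := by
    rw [← mul_div_assoc, le_div_iff₀ hl]
    have h8 : 2 * |(C : ℝ)| / η * Real.log y = |(C : ℝ)| * Real.log y * (2 / η) := by ring
    rw [h8] at h2
    have h9 : |(C : ℝ)| * Real.log y * (2 / η) * (η / 2) ≤ y * (η / 2) :=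
      mul_le_mul_of_nonneg_right h2 (by positivity)
    have h10 : |(C : ℝ)| * Real.log y * (2 / η) * (η / 2) = |(C : ℝ)| * Real.log y := by
      field_simp
    linarith
  have e2 : (1 - η) * y / Real.log y = (1 - η / 2) * y / Real.log y - η / 2 * (y / Real.log y) := by
    ring
  rw [e2]
  linarith

/-- if the densities of the extremal windows are infinitely often at least `v / log y`, then there are
homogeneous extremal windows of this density -/
lemma two (hC : S_CORE) (hP : S_PIG) (K ε : ℝ) (hK : 1 ≤ K) (hε : 0 < ε) :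
    ∃ b₀ : ℕ, ∀ b, b₀ ≤ b → ∀ v η : ℝ, 0 < v → 0 < η → η < v →
      (∃ᶠ y : ℕ in atTop, v * y / Real.log y ≤ rho y) →
      ∃ᶠ i : ℕ in atTop, (v - η) * 2 ^ (i + b) / Real.log (2 ^ (i + b)) ≤ rho (2 ^ (i + b)) ∧
        HomP K ε i b := by
  classical
  obtain ⟨b₀, h1⟩ := one hC hP K ε hK hε
  refine ⟨b₀, fun b hb v η hv hη hηv hy => ?_⟩
  -- `θ (1 - τ) v ≥ v - η`
  set τ : ℝ := η / (2 * v) with hτ
  have hτ0 : 0 < τ := by positivity
  have hτ1 : τ < 1 / 2 := by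
    rw [hτ, div_lt_iff₀ (by positivity)]
    linarith
  set θ : ℝ := 1 - τ with hθ
  have hθ0 : 0 < θ := by linarith
  obtain ⟨M, hM⟩ := h1 b hb θ v hθ0 hv
  rw [frequently_atTop]
  intro i₁
  have e1 : ∀ᶠ y : ℕ in atTop, (2 : ℝ) ^ i₁ ≤ (y : ℝ) ^ θ :=
    ((tendsto_rpow_atTop hθ0).comp tendsto_natCast_atTop_atTop).eventually_ge_atTop _
  have e2 : ∀ᶠ y : ℕ in atTop, (2 : ℝ) ^ (M + 1 + b) / τ ≤ (y : ℝ) ^ τ :=
    ((tendsto_rpow_atTop hτ0).comp tendsto_natCast_atTop_atTop).eventually_ge_atTop _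
  obtain ⟨y, hρ, hMy, hy1, hy2, hy3⟩ :=
    (hy.and_eventually (hM.and (e1.and (e2.and (eventually_ge_atTop 3))))).exists
  have hyr : (1 : ℝ) < y := by exact_mod_cast (by omega : 1 < y)
  have hy0 : (0 : ℝ) < y := by linarith
  have hl : 0 < Real.log y := Real.log_pos hyr
  -- the least `i₀` with `y ^ θ ≤ 2 ^ i₀`
  obtain ⟨i₀, hi₀, hi₀'⟩ : ∃ i₀ : ℕ, (y : ℝ) ^ θ ≤ 2 ^ i₀ ∧ (2 : ℝ) ^ i₀ ≤ 2 * (y : ℝ) ^ θ := by
    have h2 : ∃ n : ℕ, (y : ℝ) ^ θ ≤ 2 ^ n := by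
      obtain ⟨n, hn⟩ := pow_unbounded_of_one_lt ((y : ℝ) ^ θ) (one_lt_two (α := ℝ))
      exact ⟨n, hn.le⟩
    refine ⟨Nat.find h2, Nat.find_spec h2, ?_⟩
    rcases Nat.eq_zero_or_pos (Nat.find h2) with h0 | h0
    · rw [h0, pow_zero]
      have : (1 : ℝ) ≤ (y : ℝ) ^ θ := Real.one_le_rpow hyr.le hθ0.le
      linarith
    · have h3 := Nat.find_min h2 (m := Nat.find h2 - 1) (by omega)
      push Not at h3
      have h4 : (2 : ℝ) ^ Nat.find h2 = 2 * 2 ^ (Nat.find h2 - 1) := by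
        rw [← pow_succ']
        congr 1
        omega
      rw [h4]
      linarith
  have hsplit : (y : ℝ) = (y : ℝ) ^ θ * (y : ℝ) ^ τ := by
    rw [← Real.rpow_add hy0]
    have : θ + τ = 1 := by rw [hθ]; ring
    rw [this, Real.rpow_one]
  have hsmall : ∀ i, i ≤ i₀ + M → (2 : ℝ) ^ (i + b) ≤ τ * y := by
    intro i hi
    have h2 : (2 : ℝ) ^ (i + b) ≤ 2 ^ (i₀ + M + b) := pow_le_pow_right₀ (by norm_num) (by omega)
    have h3 : (2 : ℝ) ^ (i₀ + M + b) = 2 ^ i₀ * 2 ^ (M + b) := by rw [← pow_add]; congr 1; omega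
    have h4 : (2 : ℝ) ^ (M + 1 + b) = 2 * 2 ^ (M + b) := by rw [← pow_succ']; congr 1; omega
    rw [h4, div_le_iff₀ hτ0] at hy2
    have h5 : (0 : ℝ) < (y : ℝ) ^ θ := by positivity
    have h6 : (0 : ℝ) < (2 : ℝ) ^ (M + b) := by positivity
    calc (2 : ℝ) ^ (i + b) ≤ 2 ^ i₀ * 2 ^ (M + b) := h2.trans h3.le
      _ ≤ 2 * (y : ℝ) ^ θ * 2 ^ (M + b) := mul_le_mul_of_nonneg_right hi₀' h6.le
      _ = (y : ℝ) ^ θ * (2 * 2 ^ (M + b)) := by ring
      _ ≤ (y : ℝ) ^ θ * ((y : ℝ) ^ τ * τ) := mul_le_mul_of_nonneg_left hy2 h5.le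
      _ = τ * ((y : ℝ) ^ θ * (y : ℝ) ^ τ) := by ring
      _ = τ * y := by rw [← hsplit]
  -- some `i` between `i₀` and `i₀ + M` is good
  obtain ⟨i, hi1, hi2, hi3⟩ : ∃ i, i₀ ≤ i ∧ i ≤ i₀ + M ∧ HomP K ε i b := by
    by_contra hcon
    push Not at hcon
    have h2 := hMy hρ (Icc i₀ (i₀ + M)) ?_
    · rw [Nat.card_Icc] at h2
      omega
    · intro i hi
      rw [mem_Icc] at hi
      refine ⟨hi₀.trans (pow_le_pow_right₀ (by norm_num) hi.1), ?_, hcon i hi.1 hi.2⟩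
      have h3 := hsmall i hi.2
      have h4 : (2 : ℝ) ^ i ≤ 2 ^ (i + b) := pow_le_pow_right₀ (by norm_num) (by omega)
      have h5 : (2 : ℝ) ^ i ≤ y := by nlinarith
      exact_mod_cast h5
  refine ⟨i, ?_, ?_, hi3⟩
  · have h2 : (2 : ℝ) ^ i₁ ≤ 2 ^ i := (hy1.trans hi₀).trans (pow_le_pow_right₀ (by norm_num) hi1)
    exact (pow_le_pow_iff_right₀ (by norm_num : (1 : ℝ) < 2)).1 h2
  · -- the density
    have h2 := hsmall i hi2
    have hP0 : (0 : ℝ) < 2 ^ (i + b) := by positivity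
    have h3 := rho_div (s := 2 ^ (i + b)) (by positivity) y
    push_cast at h3
    have h4 : θ * Real.log y ≤ Real.log (2 ^ (i + b)) := by
      rw [← Real.log_rpow hy0]
      apply Real.log_le_log (by positivity)
      exact hi₀.trans (pow_le_pow_right₀ (by norm_num) (by omega))
    have h5 : 0 < Real.log (2 ^ (i + b)) := lt_of_lt_of_le (by positivity) h4
    rw [div_le_iff₀ h5]
    have h6 : v * y * 2 ^ (i + b) ≤ (1 + τ) * y * rho (2 ^ (i + b)) * Real.log y := by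
      rw [div_le_iff₀ hl] at hρ
      have h7 : (rho y : ℝ) * 2 ^ (i + b) ≤ (1 + τ) * y * rho (2 ^ (i + b)) := by
        refine h3.trans ?_
        apply mul_le_mul_of_nonneg_right _ (Nat.cast_nonneg _)
        linarith
      nlinarith
    have h7 : v * 2 ^ (i + b) ≤ (1 + τ) * rho (2 ^ (i + b)) * Real.log y := by
      have : y * (v * 2 ^ (i + b)) ≤ y * ((1 + τ) * rho (2 ^ (i + b)) * Real.log y) := by linarith
      exact le_of_mul_le_mul_left this hy0
    have hr0 : (0 : ℝ) ≤ rho (2 ^ (i + b)) := Nat.cast_nonneg _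
    have h8 : v * 2 ^ (i + b) * θ ≤ (1 + τ) * (rho (2 ^ (i + b)) * Real.log (2 ^ (i + b))) := by
      calc v * 2 ^ (i + b) * θ ≤ (1 + τ) * rho (2 ^ (i + b)) * Real.log y * θ :=
            mul_le_mul_of_nonneg_right h7 hθ0.le
        _ = (1 + τ) * (rho (2 ^ (i + b)) * (θ * Real.log y)) := by ring
        _ ≤ _ := by
            apply mul_le_mul_of_nonneg_left _ (by linarith)
            exact mul_le_mul_of_nonneg_left h4 hr0
    -- `(v - η) (1 + τ) ≤ v θ`
    have h9 : (v - η) * (1 + τ) ≤ v * θ := by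
      have h10 : v * τ = η / 2 := by rw [hτ]; field_simp
      rw [hθ]
      nlinarith
    have h11 : (1 + τ) * ((v - η) * 2 ^ (i + b)) ≤
        (1 + τ) * (rho (2 ^ (i + b)) * Real.log (2 ^ (i + b))) := by
      refine le_trans ?_ h8
      have : (1 + τ) * ((v - η) * 2 ^ (i + b)) = (v - η) * (1 + τ) * 2 ^ (i + b) := by ring
      rw [this]
      have : v * 2 ^ (i + b) * θ = v * θ * 2 ^ (i + b) := by ring
      rw [this]
      exact mul_le_mul_of_nonneg_right h9 hP0.le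
    exact le_of_mul_le_mul_left h11 (by linarith)

/-- `v* = limsup ρ(y) log y / y` -/
noncomputable def vs : ℝ := limsup (fun y : ℕ => (rho y : ℝ) * Real.log y / y) atTop

lemma bdd : IsBoundedUnder (· ≤ ·) atTop (fun y : ℕ => (rho y : ℝ) * Real.log y / y) := by
  obtain ⟨Y₀, h2, h⟩ := bt
  refine ⟨3, ?_⟩
  rw [eventually_map]
  filter_upwards [eventually_ge_atTop Y₀] with y hy
  have hy1 : (1 : ℝ) < y := by exact_mod_cast (by omega : 1 < y)
  have hl : 0 < Real.log y := Real.log_pos hy1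
  have h3 := h y hy
  rw [le_div_iff₀ hl] at h3
  rw [div_le_iff₀ (by linarith)]
  exact h3

lemma cobdd : IsCoboundedUnder (· ≤ ·) atTop (fun y : ℕ => (rho y : ℝ) * Real.log y / y) := by
  apply IsBoundedUnder.isCoboundedUnder_le
  refine ⟨0, ?_⟩
  rw [eventually_map]
  exact Eventually.of_forall fun y => by
    have := Real.log_natCast_nonneg y
    positivity

lemma freq {v : ℝ} (hv : v < vs) : ∃ᶠ y : ℕ in atTop, v * y / Real.log y ≤ rho y := by
  have h := frequently_lt_of_lt_limsup cobdd hv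
  refine (h.and_eventually (eventually_ge_atTop 2)).mono ?_
  rintro y ⟨h1, h2⟩
  have hy1 : (1 : ℝ) < y := by exact_mod_cast (by omega : 1 < y)
  have hl : 0 < Real.log y := Real.log_pos hy1
  rw [lt_div_iff₀ (by linarith)] at h1
  rw [div_le_iff₀ hl]
  exact h1.le

lemma evt {v : ℝ} (hv : vs < v) : ∀ᶠ y : ℕ in atTop, (rho y : ℝ) * Real.log y / y < v :=
  eventually_lt_of_limsup_lt hv bdd

/-- homogeneous windows of the maximal density -/
lemma two' (hC : S_CORE) (hP : S_PIG) (hv : 0 < vs) (K ε : ℝ) (hK : 1 ≤ K) (hε : 0 < ε) :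
    ∃ b₀ : ℕ, ∀ b, b₀ ≤ b → ∀ η : ℝ, 0 < η → ∃ᶠ i : ℕ in atTop,
      |(rho (2 ^ (i + b)) : ℝ) * Real.log ((2 ^ (i + b) : ℕ) : ℝ) / ((2 ^ (i + b) : ℕ) : ℝ) - vs| ≤ η ∧
        HomP K ε i b := by
  obtain ⟨b₀, h⟩ := two hC hP K ε hK hε
  refine ⟨b₀, fun b hb η hη => ?_⟩
  set κ : ℝ := min (η / 2) (vs / 4) with hκ
  have hκ0 : 0 < κ := lt_min (by linarith) (by linarith)
  have hκ1 : κ ≤ η / 2 := min_le_left _ _
  have hκ2 : κ ≤ vs / 4 := min_le_right _ _
  have h1 := h b hb (vs - κ) κ (by linarith) hκ0 (by linarith) (freq (by linarith))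
  obtain ⟨Y₁, hY₁⟩ := eventually_atTop.1 (evt (v := vs + η) (by linarith))
  refine (h1.and_eventually (eventually_ge_atTop (Y₁ + 1))).mono ?_
  rintro i ⟨⟨h2, h3⟩, h4⟩
  refine ⟨?_, h3⟩
  have h5 : Y₁ ≤ 2 ^ (i + b) := by
    have : i + b < 2 ^ (i + b) := Nat.lt_two_pow_self
    omega
  have h6 := hY₁ _ h5
  have hP0 : (0 : ℝ) < ((2 ^ (i + b) : ℕ) : ℝ) := by positivity
  have hl : 0 < Real.log ((2 ^ (i + b) : ℕ) : ℝ) := by
    apply Real.log_pos
    have : 1 < 2 ^ (i + b) := Nat.one_lt_two_pow (by omega)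
    exact_mod_cast this
  have h7 : vs - η ≤ (rho (2 ^ (i + b)) : ℝ) * Real.log ((2 ^ (i + b) : ℕ) : ℝ) /
      ((2 ^ (i + b) : ℕ) : ℝ) := by
    rw [le_div_iff₀ hP0]
    have e : (2 : ℝ) ^ (i + b) = ((2 ^ (i + b) : ℕ) : ℝ) := by push_cast; rfl
    rw [e, div_le_iff₀ hl] at h2
    nlinarith
  rw [abs_le]
  constructor <;> linarith

/-- Q1 and `v*` -/
lemma three : (¬ Tendsto (fun y : ℕ => (Nat.primeCounting y : ℤ) - rho y) atTop atTop → 1 ≤ vs) ∧
    (1 < vs → ¬ Tendsto (fun y : ℕ => (Nat.primeCounting y : ℤ) - rho y) atTop atTop) := by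
  constructor
  · intro hQ
    apply le_of_forall_pos_sub_le
    intro η hη
    apply le_limsup_of_frequently_le _ bdd
    refine ((dense hQ η hη).and_eventually (eventually_ge_atTop 2)).mono ?_
    rintro y ⟨h1, h2⟩
    have hy1 : (1 : ℝ) < y := by exact_mod_cast (by omega : 1 < y)
    have hl : 0 < Real.log y := Real.log_pos hy1
    rw [div_le_iff₀ hl] at h1
    rw [le_div_iff₀ (by linarith)]
    exact h1
  · intro hv hQ
    set v : ℝ := (1 + vs) / 2 with hv'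
    have h1 : 1 < v := by linarith
    obtain ⟨X₀, hX₀3, hX₀⟩ := Pool.Agent.H357R2.SI.pnt (v - 1) (by linarith)
    have h2 : ∀ᶠ y : ℕ in atTop, (1 : ℤ) ≤ (Nat.primeCounting y : ℤ) - rho y :=
      hQ.eventually_ge_atTop 1
    obtain ⟨y, hy1, hy2, hy3⟩ :=
      ((freq (v := v) (by linarith)).and_eventually (h2.and (eventually_ge_atTop X₀))).exists
    have h3 := (hX₀ y hy3).2
    have h4 : (1 : ℝ) ≤ (Nat.primeCounting y : ℝ) - rho y := by exact_mod_cast hy2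
    have h5 : (1 + (v - 1)) * (y : ℝ) / Real.log y = v * y / Real.log y := by ring
    rw [h5] at h3
    linarith

end Pool.Agent.N610.EX.FIN
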