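import Pool.Agent.N610.HX.Stm

set_option autoImplicit false

/-!
# Extremal clusters of primes are homogeneous: statements (project EX, helper610)
-/

namespace Pool.Agent.N610.EX

open Finset Filter

open Classical in
/-- The window `(x, x + Y]` is homogeneous at the lengths `[H, K H]` up to `ε`, with the density
`m / Y` (`c` is a counting function): all but at most `ε Y` of its integers `n` satisfy
`|c (n + h) - c n - m h / Y| ≤ ε m h / Y` for ALL integers `H ≤ h ≤ K H`. -/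
def HomC (c : ℕ → ℕ) (m : ℕ) (ε K : ℝ) (H Y x : ℕ) : Prop :=
  (((Ioc x (x + Y)).filter (fun n : ℕ => ¬ ∀ h : ℕ, H ≤ h → (h : ℝ) ≤ K * H →
    |((c (n + h) : ℝ) - c n) - (m : ℝ) * h / Y| ≤ ε * ((m : ℝ) * h / Y))).card : ℝ) ≤ ε * Y

/-- extremal windows are homogeneous at the lengths at which the maximal density has not yet
increased -/
def S_CORE : Prop := ∀ K ε : ℝ, 1 ≤ K → 0 < ε → ε ≤ 1 → ∃ (δ : ℝ) (a b₀ : ℕ), 0 < δ ∧
  ∀ (c M : ℕ → ℕ) (x i b : ℕ), b₀ ≤ b → a ≤ i → Monotone c → Monotone M →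
    (∀ h h', M (h + h') ≤ M h + M h') →
    (∀ t h, x ≤ t → h ≤ 2 * 2 ^ (i + b) → c (t + h) ≤ c t + M h) →
    c (x + 2 ^ (i + b)) = c x + M (2 ^ (i + b)) →
    (M (2 ^ (i - a)) : ℝ) / 2 ^ (i - a) ≤ (1 + δ) * ((M (2 ^ (i + b)) : ℝ) / 2 ^ (i + b)) →
    HomC c (M (2 ^ (i + b))) ε K (2 ^ i) (2 ^ (i + b)) x

/-- pigeonhole principle for the scales -/
def S_PIG : Prop := ∀ (δ R : ℝ) (m : ℕ), 0 < δ → 1 ≤ R → ∃ N : ℕ, ∀ (f : ℕ → ℝ) (I : Finset ℕ),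
  Antitone f → (∀ i ∈ I, 0 < f (i + m)) → (∀ i ∈ I, ∀ j ∈ I, f i ≤ R * f (j + m)) →
    (∀ i ∈ I, (1 + δ) * f (i + m) < f i) → I.card ≤ N

end Pool.Agent.N610.EX
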