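import Mathlib
import Pool.Agent.N610.EX.Stm

set_option autoImplicit false

/-!
# The pigeonhole principle for scales (project EX, leaf PIG)

Worker: helper169.
-/

namespace Pool.Agent.N610.EX.PIG_

open Finset

theorem step (δ : ℝ) (m : ℕ) (hδ : 0 < δ) (f : ℕ → ℝ) (I : Finset ℕ) (hf : Antitone f)
    (hI : ∀ i ∈ I, (1 + δ) * f (i + m) < f i) (k : ℕ) : ∀ J ⊆ I, m * k < J.card →
      ∃ i ∈ J, (∀ j ∈ J, i ≤ j) ∧ ∃ j ∈ J, (1 + δ) ^ (k + 1) * f (j + m) < f i := by
  induction k with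
  | zero =>
    intro J hJ hc
    have hne : J.Nonempty := by
      rw [← Finset.card_pos]
      exact lt_of_le_of_lt (Nat.zero_le _) hc
    refine ⟨J.min' hne, J.min'_mem hne, fun j hj => J.min'_le j hj, J.min' hne, J.min'_mem hne, ?_⟩
    rw [zero_add, pow_one]
    exact hI _ (hJ (J.min'_mem hne))
  | succ k ih =>
    intro J hJ hc
    have hne : J.Nonempty := by
      rw [← Finset.card_pos]
      exact lt_of_le_of_lt (Nat.zero_le _) hc
    set i := J.min' hne with hi
    have hiJ : i ∈ J := J.min'_mem hne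
    have h1 : J.card ≤ m + (J.filter fun j => i + m ≤ j).card := by
      have h2 : J ⊆ Finset.Ico i (i + m) ∪ J.filter fun j => i + m ≤ j := by
        intro j hj
        rw [Finset.mem_union, Finset.mem_Ico, Finset.mem_filter]
        rcases Nat.lt_or_ge j (i + m) with h | h
        · exact Or.inl ⟨J.min'_le j hj, h⟩
        · exact Or.inr ⟨hj, h⟩
      refine (Finset.card_le_card h2).trans ((Finset.card_union_le _ _).trans ?_)
      rw [Nat.card_Ico]
      omega
    have h3 : m * k < (J.filter fun j => i + m ≤ j).card := by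
      rw [Nat.mul_succ] at hc
      omega
    obtain ⟨i', hi', -, j, hj, hlt⟩ := ih _ ((Finset.filter_subset _ _).trans hJ) h3
    rw [Finset.mem_filter] at hi' hj
    refine ⟨i, hiJ, fun j hj => J.min'_le j hj, j, hj.1, ?_⟩
    have h4 : f i' ≤ f (i + m) := hf hi'.2
    have h5 := hI i (hJ hiJ)
    have hd : 0 < 1 + δ := by linarith
    calc (1 + δ) ^ (k + 1 + 1) * f (j + m) = (1 + δ) * ((1 + δ) ^ (k + 1) * f (j + m)) := by ring
      _ < (1 + δ) * f i' := mul_lt_mul_of_pos_left hlt hd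
      _ ≤ (1 + δ) * f (i + m) := mul_le_mul_of_nonneg_left h4 hd.le
      _ < f i := h5

end Pool.Agent.N610.EX.PIG_

namespace Pool.Agent.N610.EX

theorem t_PIG : S_PIG := by
  intro δ R m hδ _
  obtain ⟨k, hk⟩ := pow_unbounded_of_one_lt R (by linarith : (1 : ℝ) < 1 + δ)
  refine ⟨m * k, fun f I hf hpos hR hI => ?_⟩
  by_contra hcon
  rw [not_le] at hcon
  obtain ⟨i, hi, -, j, hj, hlt⟩ := PIG_.step δ m hδ f I hf hI k I (Finset.Subset.refl _) hcon
  have h1 := hR i hi j hj
  have h2 := hpos j hj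
  have h3 : (1 + δ) ^ (k + 1) * f (j + m) < R * f (j + m) := hlt.trans_le h1
  have h4 : (1 + δ) ^ (k + 1) < R := lt_of_mul_lt_mul_right h3 h2.le
  have h5 : (1 + δ) ^ k ≤ (1 + δ) ^ (k + 1) :=
    pow_le_pow_right₀ (by linarith) (Nat.le_succ k)
  linarith

end Pool.Agent.N610.EX
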